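import Mathlib
import Pool.Agent.Q48.GB.Main

set_option autoImplicit false

/-! # Word frequencies in expansions with a Gaussian rational base -/

namespace Pool.Agent.Results.MP_cdbd41_nt.EqualFrequencies

open Filter Topology MeasureTheory Pool.Agent.Q48.GB

/-- `α ∈ ℚ(i) ∖ ℝ`, `|α| > 1`, and `P_α = a2 X^2 + a1 X + a0` is the minimal primitive polynomial
of `α` (coprime integer coefficients, `a2 > 0`) -/
def Base (α : ℂ) (a2 a1 a0 : ℤ) : Prop :=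
  (∃ r s : ℚ, α = (r : ℂ) + (s : ℂ) * Complex.I) ∧ α.im ≠ 0 ∧ 1 < ‖α‖ ∧
    (a2 : ℂ) * α ^ 2 + a1 * α + a0 = 0 ∧ 0 < a2 ∧ Int.gcd (Int.gcd a0 a1) a2 = 1

/-- the lattice `Λ_α = a2 ℤ + (a2 α + a1) ℤ` -/
def Lambda (α : ℂ) (a2 a1 : ℤ) : Set ℂ :=
  {z | ∃ m n : ℤ, z = (a2 : ℂ) * m + ((a2 : ℂ) * α + a1) * n}

/-- `(d_j)_{j ≤ k}` is an `α`-expansion of `x`: the digits are in `{0, …, |a0| - 1}`,
`x = ∑_{j ≤ k} d_j α^j`, and `∑_{j=m}^{k} d_j α^(j-m) ∈ Λ_α` for every `m ≤ k` -/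
def IsExpansion (α : ℂ) (a2 a1 a0 : ℤ) (x : ℂ) (k : ℤ) (d : ℤ → ℕ) : Prop :=
  (∀ j : ℤ, j ≤ k → d j < a0.natAbs) ∧
    HasSum (fun t : ℕ => (d (k - t) : ℂ) * α ^ (k - (t : ℤ))) x ∧
    ∀ m : ℤ, m ≤ k → (∑ j ∈ Finset.Icc m k, (d j : ℂ) * α ^ (j - m)) ∈ Lambda α a2 a1

open Classical in
/-- number of `0 ≤ t < n` with `d_{k-t} d_{k-t-1} ⋯ d_{k-t-ℓ+1} = w` -/
noncomputable def occurrences (k : ℤ) (d : ℤ → ℕ) {ℓ : ℕ} (w : Fin ℓ → ℕ) (n : ℕ) : ℕ :=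
  ((Finset.range n).filter (fun t : ℕ => ∀ i : Fin ℓ, d (k - t - (i : ℕ)) = w i)).card

lemma prefix_eq (α : ℂ) (k : ℤ) (d : ℤ → ℕ) (t : ℕ) :
    ∑ j ∈ Finset.Icc (k - t) k, (d j : ℂ) * α ^ (j - (k - t)) = PP α (fun s => d (k - s)) t := by
  rw [PP_sum]
  refine Finset.sum_nbij' (fun j => (k - j).toNat) (fun s => k - (s : ℤ)) ?_ ?_ ?_ ?_ ?_
  · intro j hj
    rw [Finset.mem_Icc] at hj
    rw [Finset.mem_range]
    omega
  · intro s hs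
    rw [Finset.mem_range] at hs
    rw [Finset.mem_Icc]
    omega
  · intro j hj
    rw [Finset.mem_Icc] at hj
    omega
  · intro s hs
    omega
  · intro j hj
    rw [Finset.mem_Icc] at hj
    have h1 : ((k - j).toNat : ℤ) = k - j := Int.toNat_of_nonneg (by omega)
    have h2 : k - ((k - j).toNat : ℤ) = j := by omega
    have h3 : ((t - (k - j).toNat : ℕ) : ℤ) = j - (k - t) := by omega
    rw [h2, ← zpow_natCast, h3]

/-- **Equal frequencies.** For every `α ∈ ℚ(i) ∖ ℝ` with `|α| > 1` and Lebesgue-almost every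
`x ∈ ℂ`, in every `α`-expansion of `x` every word `w` of every length `ℓ ≥ 1` over
`{0, …, |a0| - 1}` has the frequency `|a0|^(-ℓ)`. -/
theorem result : ∀ (α : ℂ) (a2 a1 a0 : ℤ), Base α a2 a1 a0 →
    ∀ᵐ x : ℂ, ∀ (k : ℤ) (d : ℤ → ℕ), IsExpansion α a2 a1 a0 x k d →
      ∀ ℓ : ℕ, 1 ≤ ℓ → ∀ w : Fin ℓ → ℕ, (∀ i, w i < a0.natAbs) →
        Tendsto (fun n : ℕ => (occurrences k d w n : ℝ) / n) atTop
          (𝓝 (1 / (a0.natAbs : ℝ) ^ ℓ)) := by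
  classical
  intro α a2 a1 a0 hB
  have h : IsBase α a2 a1 a0 := ⟨hB.1, hB.2.1, hB.2.2.1, hB.2.2.2.1, hB.2.2.2.2.1, hB.2.2.2.2.2⟩
  have ha0 : 0 < a0 := h.exists_p.1
  have hb : 0 < a0.natAbs := by omega
  have hba : (a0.natAbs : ℤ) = a0 := by omega
  filter_upwards [ae_freq h hb hba] with x hx k d hd ℓ hℓ w hw
  have hexp : IsExp α a2 a1 a0.natAbs k x (fun s => d (k - s)) := by
    refine ⟨fun s => hd.1 _ (by omega), fun t => ?_, hd.2.1⟩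
    have h1 := hd.2.2 (k - t) (by omega)
    rw [prefix_eq] at h1
    exact h1
  have h2 := hx k _ hexp ℓ hℓ (fun i => ⟨w i, hw i⟩)
  rw [one_div]
  refine h2.congr (fun n => ?_)
  congr 1
  unfold SS occurrences
  rw [Finset.card_filter]
  push_cast
  apply Finset.sum_congr rfl
  intro s _
  congr 1
  apply propext
  apply forall_congr'
  intro j
  rw [show k - ((s : ℤ) + ((j : ℕ) : ℤ)) = k - s - ((j : ℕ) : ℤ) by ring]

end Pool.Agent.Results.MP_cdbd41_nt.EqualFrequencies
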